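import Pool.Agent.Helper87.Irr.GoalsA

/-!
MP_033e98_co, packet PStep.
-/

namespace Pool.Agent.Helper89.Irr

open Irr37 Irr87

theorem pStep : PStep := by
  classical
  intro p z B V hIn hB hV
  have hz : z ≤ V.card := (hIn z le_rfl).trans (Finset.card_filter_le _ _)
  have hBp : p + 1 ≤ B := by omega
  set F : Finset ℕ := (Finset.Icc 1 p).filter (fun x => B + x ∉ V) with hF
  have hne : F.Nonempty := by
    by_contra hno
    rw [Finset.not_nonempty_iff_eq_empty] at hno
    have h1 : (Finset.Icc 1 p).image (fun x => B + x) ⊆ V := by
      intro w hw
      obtain ⟨x, hx, rfl⟩ := Finset.mem_image.1 hw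
      by_contra hxV
      have : x ∈ F := Finset.mem_filter.2 ⟨hx, hxV⟩
      rw [hno] at this
      exact absurd this (Finset.notMem_empty _)
    have h2 := Finset.card_le_card h1
    rw [Finset.card_image_of_injective _ (add_right_injective B), Nat.card_Icc] at h2
    omega
  obtain ⟨x, hx, hmax⟩ := Finset.exists_max_image F id hne
  have hx' := Finset.mem_filter.1 hx
  have hx1 := Finset.mem_Icc.1 hx'.1
  have hall : ∀ j, j < p - x → B + p - j ∈ V := by
    intro j hj
    by_contra hno
    have h1 : p - j ∈ F := by
      refine Finset.mem_filter.2 ⟨Finset.mem_Icc.2 (by omega), ?_⟩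
      have e : B + (p - j) = B + p - j := by omega
      rw [e]
      exact hno
    have h2 := hmax _ h1
    simp only [id] at h2
    omega
  refine ⟨x, hx1.1, hx1.2, by omega, hx'.2, ?_⟩
  intro y hy
  by_cases hyz : y ≤ z
  · exact (hIn y hyz).trans (Finset.card_le_card
      (Finset.filter_subset_filter _ (Finset.subset_insert _ _)))
  · push Not at hyz
    by_cases hB2 : 2 * p ≤ B
    · have h1 : (Finset.range y).image (fun j => B + p - j) ⊆
          (insert (B + x) V).filter (fun w => 3 * p < w + y) := by
        intro w hw
        obtain ⟨j, hj, rfl⟩ := Finset.mem_image.1 hw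
        rw [Finset.mem_range] at hj
        refine Finset.mem_filter.2 ⟨Finset.mem_insert_of_mem (hall j (by omega)), by omega⟩
      have h2 := Finset.card_le_card h1
      rw [Finset.card_image_of_injOn, Finset.card_range] at h2
      · exact h2
      · intro a ha b hb hab
        rw [Finset.mem_coe, Finset.mem_range] at ha hb
        simp only at hab
        omega
    · push Not at hB2
      have h1 : V.filter (fun w => 3 * p < w + (2 * p - B)) ∪
          (Finset.range (y - (2 * p - B))).image (fun j => B + p - j) ⊆
          (insert (B + x) V).filter (fun w => 3 * p < w + y) := by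
        intro w hw
        rcases Finset.mem_union.1 hw with hw | hw
        · have := Finset.mem_filter.1 hw
          exact Finset.mem_filter.2 ⟨Finset.mem_insert_of_mem this.1, by omega⟩
        · obtain ⟨j, hj, rfl⟩ := Finset.mem_image.1 hw
          rw [Finset.mem_range] at hj
          exact Finset.mem_filter.2 ⟨Finset.mem_insert_of_mem (hall j (by omega)), by omega⟩
      have h2 := Finset.card_le_card h1
      rw [Finset.card_union_of_disjoint, Finset.card_image_of_injOn, Finset.card_range] at h2
      · have h3 := hIn (2 * p - B) (by omega)
        omega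
      · intro a ha b hb hab
        rw [Finset.mem_coe, Finset.mem_range] at ha hb
        simp only at hab
        omega
      · rw [Finset.disjoint_left]
        intro w hw hw2
        have := (Finset.mem_filter.1 hw).2
        obtain ⟨j, hj, rfl⟩ := Finset.mem_image.1 hw2
        rw [Finset.mem_range] at hj
        omega

end Pool.Agent.Helper89.Irr
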