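import Pool.Agent.Helper87.Irr.GoalsT

/-!
MP_033e98_co, packet UCLegs: a vertex of F-degree two with two legs at the start.
-/

namespace Pool.Agent.Helper89.Irr

open Irr37 Irr87

theorem chS_lt {p S : ℕ} {Ds : List ℕ} {h : ℕ} (hc : ChS p S Ds h) : ∀ D ∈ Ds, D < p := by
  obtain ⟨D, l, rfl, h1, h2, h3, h4⟩ := hc
  intro D' hD'
  rcases List.mem_cons.1 hD' with rfl | hD'
  · exact h3
  · exact h4.le D' hD'

theorem wts_nodup {p : ℕ} {Ds : List ℕ} (h : Ds.Nodup) (hlt : ∀ D ∈ Ds, D < p) :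
    (wts p Ds).Nodup := by
  unfold wts
  rw [Multiset.coe_nodup]
  apply List.Nodup.map_on _ h
  intro a ha b hb hab
  have h1 := hlt a ha
  have h2 := hlt b hb
  omega

theorem mset_split {s : Multiset ℕ} {n : ℕ} (h : n ≤ Multiset.card s) :
    ∃ F₁ F₂, s = F₁ + F₂ ∧ Multiset.card F₁ = n := by
  induction s using Quotient.inductionOn with
  | h l =>
    refine ⟨(l.take n : List ℕ), (l.drop n : List ℕ), ?_, ?_⟩
    · rw [Multiset.coe_add, List.take_append_drop]
      rfl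
    · rw [Multiset.coe_card, List.length_take]
      exact min_eq_left h

theorem in_zero (p : ℕ) (V : Finset ℕ) : In p V 0 := by
  intro y hy
  have : y = 0 := Nat.le_zero.1 hy
  rw [this]
  exact Nat.zero_le _

theorem star_one {p : ℕ} {V : Finset ℕ} {C n S : ℕ} (h : Star p V C [(n, S)]) :
    ∃ (Ds : List ℕ) (h w : ℕ), Ds.length = n ∧ ChS p S Ds h ∧ h < p ∧ Ds.Nodup ∧
      (∀ D ∈ Ds, 2 * p - D ∉ V ∧ 2 * p - D ≠ w) ∧ w + h = C + p ∧ p < w ∧ w ∉ V := by
  obtain ⟨Dss, hs, w, hr, hnd, hD, hw, hpw, hwV⟩ := h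
  match Dss, hs, hr with
  | [Ds], [h], hr =>
    obtain ⟨h1, h2, h3, _⟩ := hr
    rw [List.flatten_cons, List.flatten_nil, List.append_nil] at hnd hD
    refine ⟨Ds, h, w, h1, h2, h3, hnd, hD, ?_, hpw, hwV⟩
    simpa using hw
  | [], [], hr => exact absurd hr (by simp [Runs])
  | [], _ :: _, hr => exact absurd hr (by simp [Runs])
  | _ :: _, [], hr => exact absurd hr (by simp [Runs])
  | _ :: _ :: _, _ :: _, hr => exact absurd hr.2.2.2 (by simp [Runs])
  | [_], _ :: _ :: _, hr => exact absurd hr.2.2.2 (by simp [Runs])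

theorem star_two {p : ℕ} {V : Finset ℕ} {C n S n' S' : ℕ} (h : Star p V C [(n, S), (n', S')]) :
    ∃ (Ds : List ℕ) (h : ℕ) (Ds' : List ℕ) (h' w : ℕ), Ds.length = n ∧ ChS p S Ds h ∧ h < p ∧
      Ds'.length = n' ∧ ChS p S' Ds' h' ∧ h' < p ∧ (Ds ++ Ds').Nodup ∧
      (∀ D ∈ Ds ++ Ds', 2 * p - D ∉ V ∧ 2 * p - D ≠ w) ∧ w + (h + h') = C + 2 * p ∧ p < w ∧
      w ∉ V := by
  obtain ⟨Dss, hs, w, hr, hnd, hD, hw, hpw, hwV⟩ := h
  match Dss, hs, hr with
  | [Ds, Ds'], [h, h'], hr =>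
    obtain ⟨h1, h2, h3, h4, h5, h6, _⟩ := hr
    rw [List.flatten_cons, List.flatten_cons, List.flatten_nil, List.append_nil] at hnd hD
    refine ⟨Ds, h, Ds', h', w, h1, h2, h3, h4, h5, h6, hnd, hD, ?_, hpw, hwV⟩
    simp at hw
    omega
  | [], [], hr => exact absurd hr (by simp [Runs])
  | [], _ :: _, hr => exact absurd hr (by simp [Runs])
  | _ :: _, [], hr => exact absurd hr (by simp [Runs])
  | [_], [_], hr => exact absurd hr.2.2.2 (by simp [Runs])
  | [_], _ :: _ :: _, hr => exact absurd hr.2.2.2 (by simp [Runs])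
  | _ :: _ :: _, [_], hr => exact absurd hr.2.2.2 (by simp [Runs])
  | _ :: _ :: _ :: _, _ :: _ :: _, hr => exact absurd hr.2.2.2.2.2.2 (by simp [Runs])
  | _ :: _ :: _, _ :: _ :: _ :: _, hr => exact absurd hr.2.2.2.2.2.2 (by simp [Runs])

/-- two runs -/
theorem fin2 {p : ℕ} {V : Finset ℕ} {A : Multiset ℕ} {t₁ t₂ r₁ r₂ : RF} {L₁ L₂ : Multiset ℕ}
    {Ds₁ Ds₂ : List ℕ} {h₁ h₂ w : ℕ}
    (hP₁ : PS p t₁ (p - h₁) (wts p Ds₁) L₁ r₁) (hP₂ : PS p t₂ (p - h₂) (wts p Ds₂) L₂ r₂)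
    (hh₁ : h₁ < p) (hh₂ : h₂ < p) (hnd : (Ds₁ ++ Ds₂).Nodup) (hlt₁ : ∀ D ∈ Ds₁, D < p)
    (hlt₂ : ∀ D ∈ Ds₂, D < p)
    (hV : ∀ D ∈ Ds₁ ++ Ds₂, 2 * p - D ∉ V ∧ 2 * p - D ≠ w)
    (hw : w + (h₁ + h₂) = A.sum + 2 * p) (hpw : p < w) (hwV : w ∉ V) :
    ∃ (x : ℕ) (W : Multiset ℕ), PS p (app t₁ t₂) x W (L₁ + L₂) (app r₁ r₂) ∧
      ((A.sum + x) ::ₘ W).Nodup ∧ ∀ u ∈ (A.sum + x) ::ₘ W, p < u ∧ u ∉ V := by
  refine ⟨_, _, hP₁.app hP₂, ?_, ?_⟩
  · rw [← wts_append, Multiset.nodup_cons]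
    constructor
    · intro hmem
      obtain ⟨D, hD, hD2⟩ := mem_wts.1 hmem
      apply (hV D hD).2
      omega
    · apply wts_nodup hnd
      intro D hD
      rcases List.mem_append.1 hD with h | h
      · exact hlt₁ D h
      · exact hlt₂ D h
  · intro u hu
    rw [← wts_append, Multiset.mem_cons] at hu
    rcases hu with rfl | hu
    · have e : A.sum + (p - h₁ + (p - h₂)) = w := by omega
      rw [e]
      exact ⟨hpw, hwV⟩
    · obtain ⟨D, hD, rfl⟩ := mem_wts.1 hu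
      refine ⟨?_, (hV D hD).1⟩
      have : D < p := by
        rcases List.mem_append.1 hD with h | h
        · exact hlt₁ D h
        · exact hlt₂ D h
      omega

/-- two open legs -/
theorem openBoth (hS1 : Star1) {p l r₁ b₁ r₂ b₂ : ℕ} (_hl : 1 ≤ l) (h₁ : 1 ≤ r₁) (h₂ : 1 ≤ r₂)
    (hev : ¬ (r₁ % 2 = 1 ∧ r₂ % 2 = 1)) :
    USolves p l (app (zrun r₁ (bot b₁)) (zrun r₂ (bot b₂))) (app (bot b₁) (bot b₂)) {p} := by
  intro V fill hsz hcard hfill hnd
  simp only [app_size, zrun_size, bot_size, app_leaves, zrun_leaves, bot_leaves,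
    Multiset.card_singleton] at hsz hcard
  have hp : 1 ≤ p := by omega
  have key : ∃ (Ds : List ℕ) (h : ℕ) (Ds' : List ℕ) (h' w : ℕ), Ds.length = r₁ ∧ ChS p p Ds h ∧
      h < p ∧ Ds'.length = r₂ ∧ ChS p p Ds' h' ∧ h' < p ∧ (Ds ++ Ds').Nodup ∧
      (∀ D ∈ Ds ++ Ds', 2 * p - D ∉ V ∧ 2 * p - D ≠ w) ∧
      w + (h + h') = (p ::ₘ fill).sum + 2 * p ∧ p < w ∧ w ∉ V := by
    rcases Nat.mod_two_eq_zero_or_one r₁ with he | he
    · have hodd : oddc [r₂] - 1 = 0 := by
        have : oddc [r₂] ≤ 1 := by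
          unfold oddc
          exact (List.length_filter_le _ _).trans (by simp)
        omega
      have := hS1 p 0 0 0 ((p ::ₘ fill).sum) V [r₂] r₁ p (by simpa using h₂)
        (Nat.even_iff.2 he) h₁ (by omega) (by omega) (by omega) (in_zero p V)
        (by rw [hodd, Multiset.sum_cons]; simp; omega) (by simp; omega)
      exact star_two this
    · have he2 : r₂ % 2 = 0 := by
        rcases Nat.mod_two_eq_zero_or_one r₂ with h | h
        · exact h
        · exact absurd ⟨he, h⟩ hev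
      have hodd : oddc [r₁] - 1 = 0 := by
        have : oddc [r₁] ≤ 1 := by
          unfold oddc
          exact (List.length_filter_le _ _).trans (by simp)
        omega
      have := hS1 p 0 0 0 ((p ::ₘ fill).sum) V [r₁] r₂ p (by simpa using h₁)
        (Nat.even_iff.2 he2) h₂ (by omega) (by omega) (by omega) (in_zero p V)
        (by rw [hodd, Multiset.sum_cons]; simp; omega) (by simp; omega)
      obtain ⟨Ds, h, Ds', h', w, q1, q2, q3, q4, q5, q6, q7, q8, q9, q10, q11⟩ := star_two this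
      refine ⟨Ds', h', Ds, h, w, q4, q5, q6, q1, q2, q3, ?_, ?_, ?_, q10, q11⟩
      · exact List.nodup_append_comm.1 q7
      · intro D hD
        apply q8
        rw [List.mem_append] at hD ⊢
        exact hD.symm
      · omega
  obtain ⟨Ds, h, Ds', h', w, q1, q2, q3, q4, q5, q6, q7, q8, q9, q10, q11⟩ := key
  have P1 := PS.openRun (y := bot b₁) hp (bot_width _) q2
  have P2 := PS.openRun (y := bot b₂) hp (bot_width _) q5
  rw [q1] at P1
  rw [q4] at P2
  obtain ⟨x, W, e1, e2, e3⟩ := fin2 P1 P2 q3 q6 q7 (chS_lt q2) (chS_lt q5) q8 q9 q10 q11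
  refine ⟨p ::ₘ fill, x, W, 0 + 0, ?_, e1, ?_, e2, e3⟩
  · rw [Multiset.card_cons]
    omega
  · rw [add_zero, add_zero, Multiset.singleton_add]

/-- one included leg with outer sum `p`, one odd open leg -/
theorem inclOne (hS1 : Star1) {p l r₁ r₂ b₂ c K : ℕ} {X res : Multiset ℕ} (_hl : 1 ≤ l)
    (ho₁ : r₁ % 2 = 1) (ho₂ : r₂ % 2 = 1) (hX : X.sum = p) (hres : res = c ::ₘ X) (hK : K ≤ 1)
    (hc : p ≤ c + K) (hp : 1 ≤ p) :
    USolves p l (app (zrun r₁ (bot (Multiset.card X))) (zrun r₂ (bot b₂))) (bot b₂) res := by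
  intro V fill hsz hcard hfill hnd
  rw [hres] at hcard
  simp only [app_size, zrun_size, bot_size, app_leaves, zrun_leaves, bot_leaves,
    Multiset.card_cons] at hsz hcard
  have hodd : oddc [r₂] = 1 := by
    unfold oddc
    simp [ho₂]
  have h2 : 1 ≤ r₂ := by omega
  have := hS1 p 0 0 K ((c ::ₘ fill).sum) V [r₂] (r₁ + 1) p (by simpa using h2)
    (Nat.even_iff.2 (by omega)) (by omega) (by omega) (by omega) (by rw [hodd]; simpa using hK)
    (in_zero p V)
    (by rw [hodd, Multiset.sum_cons]; simp; omega) (by simp; omega)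
  obtain ⟨Ds, h, Ds', h', w, q1, q2, q3, q4, q5, q6, q7, q8, q9, q10, q11⟩ := star_two this
  have q2' : ChS p X.sum Ds h := by rw [hX]; exact q2
  have P1 := PS.inclLeg (X := X) q1 q2'
  have P2 := PS.openRun (y := bot b₂) hp (bot_width _) q5
  rw [q4] at P2
  obtain ⟨x, W, e1, e2, e3⟩ := fin2 P1 P2 q3 q6 q7 (chS_lt q2) (chS_lt q5) q8 q9 q10 q11
  refine ⟨c ::ₘ fill, x, W, X + 0, ?_, e1, ?_, e2, e3⟩
  · rw [Multiset.card_cons]
    omega
  · rw [hres, add_zero, Multiset.cons_add, Multiset.cons_add, add_comm fill X]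

/-- one excluded leg and one open leg -/
theorem exclOne (hRE : RE) {p l r₁ b₁ r₂ b₂ : ℕ} (hl : 1 ≤ l) (h₁ : 1 ≤ r₁) (hb₁ : 3 ≤ b₁)
    (h₂ : 1 ≤ r₂) (hp : 7 ≤ p) :
    USolves p l (app (zrun r₁ (bot b₁)) (zrun r₂ (bot b₂))) (bot b₂)
      (p ::ₘ (p - 1) ::ₘ (p - 2) ::ₘ (p - 3) ::ₘ 0) := by
  intro V fill hsz hcard hfill hnd
  simp only [app_size, zrun_size, bot_size, app_leaves, zrun_leaves, bot_leaves,
    Multiset.card_cons, Multiset.card_zero] at hsz hcard
  obtain ⟨F₁, F₂, rfl, hF₁c⟩ := mset_split (s := fill) (n := b₁ - 3) (by omega)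
  rw [Multiset.card_add] at hcard
  set X : Multiset ℕ := (p - 1) ::ₘ (p - 2) ::ₘ (p - 3) ::ₘ F₁ with hX
  have hXc : Multiset.card X = b₁ := by
    rw [hX, Multiset.card_cons, Multiset.card_cons, Multiset.card_cons]
    omega
  have hXs : 2 * p ≤ X.sum := by
    rw [hX, Multiset.sum_cons, Multiset.sum_cons, Multiset.sum_cons]
    omega
  have s1 := hRE p r₁ 0 0 X.sum V h₁ (in_zero p V) (by omega) (by omega)
  obtain ⟨Ds, h, w, q1, q2, q3, q4, q5, q6, q7, q8⟩ := star_one s1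
  set V' : Finset ℕ := insert w (V ∪ (wts p Ds).toFinset) with hV'
  have hV'c : V'.card ≤ V.card + r₁ + 1 := by
    rw [hV']
    refine (Finset.card_insert_le _ _).trans ?_
    have e1 := Finset.card_union_le V (wts p Ds).toFinset
    have e2 := Multiset.toFinset_card_le (wts p Ds)
    rw [card_wts] at e2
    omega
  have s2 := hRE p r₂ 0 0 ((p ::ₘ F₂).sum + p) V' h₂ (in_zero p V')
    (by rw [Multiset.sum_cons]; omega) (by omega)
  obtain ⟨Ds', h', w', q1', q2', q3', q4', q5', q6', q7', q8'⟩ := star_one s2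
  have P1 := PS.exclLeg (X := X) q3 q2
  rw [q1, hXc] at P1
  have hw : X.sum + (p - h) = w := by omega
  rw [hw] at P1
  have P2 := PS.openRun (y := bot b₂) (by omega) (bot_width _) q2'
  rw [q1'] at P2
  have hw' : (p ::ₘ F₂).sum + (p + (p - h')) = w' := by omega
  refine ⟨p ::ₘ F₂, _, _, _, ?_, P1.app P2, ?_, ?_, ?_⟩
  · rw [Multiset.card_cons]
    omega
  · rw [hX]
    simp only [add_zero, Multiset.cons_add, Multiset.add_cons, zero_add]
    rw [add_comm F₂ F₁]
    rw [Multiset.cons_swap (p - 3) p, Multiset.cons_swap (p - 2) p, Multiset.cons_swap (p - 1) p]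
  · rw [hw', Multiset.nodup_cons]
    have hV1 : ∀ u ∈ w ::ₘ wts p Ds, u ∈ V' := by
      intro u hu
      rw [hV', Finset.mem_insert, Finset.mem_union, Multiset.mem_toFinset]
      rcases Multiset.mem_cons.1 hu with h | h
      · exact Or.inl h
      · exact Or.inr (Or.inr h)
    constructor
    · intro hmem
      rcases Multiset.mem_add.1 hmem with hm | hm
      · exact q8' (hV1 _ hm)
      · obtain ⟨D, hD, hD2⟩ := mem_wts.1 hm
        exact (q5' D hD).2 hD2
    · rw [Multiset.nodup_add]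
      refine ⟨?_, wts_nodup q4' (chS_lt q2'), ?_⟩
      · rw [Multiset.nodup_cons]
        refine ⟨?_, wts_nodup q4 (chS_lt q2)⟩
        intro hm
        obtain ⟨D, hD, hD2⟩ := mem_wts.1 hm
        exact (q5 D hD).2 hD2
      · rw [Multiset.disjoint_left]
        intro u hu hu2
        obtain ⟨D, hD, rfl⟩ := mem_wts.1 hu2
        exact (q5' D hD).1 (hV1 _ hu)
  · intro u hu
    rw [hw'] at hu
    have hVV : ∀ u, u ∉ V' → u ∉ V := by
      intro u hu hu2
      apply hu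
      rw [hV', Finset.mem_insert, Finset.mem_union]
      exact Or.inr (Or.inl hu2)
    rcases Multiset.mem_cons.1 hu with rfl | hu
    · exact ⟨q7', hVV _ q8'⟩
    · rcases Multiset.mem_add.1 hu with hm | hm
      · rcases Multiset.mem_cons.1 hm with rfl | hm
        · exact ⟨q7, q8⟩
        · obtain ⟨D, hD, rfl⟩ := mem_wts.1 hm
          have := chS_lt q2 D hD
          exact ⟨by omega, (q5 D hD).1⟩
      · obtain ⟨D, hD, rfl⟩ := mem_wts.1 hm
        have := chS_lt q2' D hD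
        exact ⟨by omega, hVV _ (q5' D hD).1⟩

/-- the case of two odd legs, the first leg being the thinner one in a weak sense -/
theorem bothOdd (hRE : RE) (hS1 : Star1) {p l r₁ b₁ r₂ b₂ : ℕ} (hl : 1 ≤ l) (ho₁ : r₁ % 2 = 1)
    (hb₁ : 1 ≤ b₁) (ho₂ : r₂ % 2 = 1) (hb₂ : 1 ≤ b₂) (hp : l + b₁ + b₂ = p)
    (hb : b₁ ≤ 2 ∨ 3 ≤ b₂) :
    ∃ res : Finset ℕ, res ⊆ Finset.Icc 1 p ∧ res.card + (bot b₂).leaves ≤ p ∧
      USolves p l (app (zrun r₁ (bot b₁)) (zrun r₂ (bot b₂))) (bot b₂) res.val := by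
  by_cases h1 : b₁ = 1
  · subst h1
    refine ⟨{p - 1, p}, ?_, ?_, ?_⟩
    · intro a ha
      rw [Finset.mem_insert, Finset.mem_singleton] at ha
      rw [Finset.mem_Icc]
      omega
    · have := Finset.card_le_two (a := p - 1) (b := p)
      rw [bot_leaves]
      omega
    · have e : ({p - 1, p} : Finset ℕ).val = (p - 1) ::ₘ ({p} : Multiset ℕ) := by
        rw [Finset.insert_val_of_notMem (by rw [Finset.mem_singleton]; omega),
          Finset.singleton_val]
      have := inclOne hS1 (p := p) (l := l) (r₁ := r₁) (r₂ := r₂) (b₂ := b₂) (c := p - 1) (K := 1)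
        (X := {p}) hl ho₁ ho₂ (by simp) e (le_refl 1) (by omega) (by omega)
      simpa using this
  · by_cases h2 : b₁ = 2
    · subst h2
      have e : ({p, 1, p - 1} : Finset ℕ).val = p ::ₘ (1 ::ₘ ({p - 1} : Multiset ℕ)) := by
        rw [Finset.insert_val_of_notMem, Finset.insert_val_of_notMem, Finset.singleton_val]
        · rw [Finset.mem_singleton]; omega
        · rw [Finset.mem_insert, Finset.mem_singleton]; omega
      refine ⟨{p, 1, p - 1}, ?_, ?_, ?_⟩
      · intro a ha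
        rw [Finset.mem_insert, Finset.mem_insert, Finset.mem_singleton] at ha
        rw [Finset.mem_Icc]
        omega
      · have := Finset.card_le_three (a := p) (b := 1) (c := p - 1)
        rw [bot_leaves]
        omega
      · have := inclOne hS1 (p := p) (l := l) (r₁ := r₁) (r₂ := r₂) (b₂ := b₂) (c := p) (K := 0)
          (X := 1 ::ₘ {p - 1}) hl ho₁ ho₂ (by simp; omega) e (by omega) (by omega) (by omega)
        simpa using this
    · have h3 : 3 ≤ b₂ := by omega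
      have e : ({p, p - 1, p - 2, p - 3} : Finset ℕ).val =
          p ::ₘ (p - 1) ::ₘ (p - 2) ::ₘ (p - 3) ::ₘ 0 := by
        rw [Finset.insert_val_of_notMem, Finset.insert_val_of_notMem,
          Finset.insert_val_of_notMem, Finset.singleton_val]
        · rfl
        · rw [Finset.mem_singleton]; omega
        · rw [Finset.mem_insert, Finset.mem_singleton]; omega
        · rw [Finset.mem_insert, Finset.mem_insert, Finset.mem_singleton]; omega
      refine ⟨{p, p - 1, p - 2, p - 3}, ?_, ?_, ?_⟩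
      · intro a ha
        rw [Finset.mem_insert, Finset.mem_insert, Finset.mem_insert, Finset.mem_singleton] at ha
        rw [Finset.mem_Icc]
        omega
      · have := Finset.card_le_four (a := p) (b := p - 1) (c := p - 2) (d := p - 3)
        rw [bot_leaves]
        omega
      · rw [e]
        exact exclOne hRE hl (by omega) (by omega) (by omega) (by omega)

theorem uCLegs (hRE : RE) (hS1 : Star1) : UCLegs := by
  intro p l r₁ b₁ r₂ b₂ hl h₁ hb₁ h₂ hb₂ hp
  by_cases hev : r₁ % 2 = 1 ∧ r₂ % 2 = 1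
  · by_cases hb : b₁ ≤ 2 ∨ 3 ≤ b₂
    · obtain ⟨res, q1, q2, q3⟩ := bothOdd hRE hS1 hl hev.1 hb₁ hev.2 hb₂ hp hb
      exact ⟨_, res, q1, q2, Or.inr (Or.inr (Or.inl rfl)), Or.inl q3⟩
    · obtain ⟨res, q1, q2, q3⟩ := bothOdd hRE hS1 hl hev.2 hb₂ hev.1 hb₁ (by omega) (p := p)
        (by omega)
      exact ⟨_, res, q1, q2, Or.inr (Or.inl rfl), Or.inr q3⟩
  · refine ⟨_, {p}, ?_, ?_, Or.inl rfl, Or.inl (openBoth hS1 hl h₁ h₂ hev)⟩
    · intro a ha
      rw [Finset.mem_singleton] at ha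
      rw [Finset.mem_Icc]
      omega
    · rw [Finset.card_singleton, app_leaves, bot_leaves, bot_leaves]
      omega

end Pool.Agent.Helper89.Irr
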