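import Pool.Agent.Helper89.Irr.UCLegs

/-!
MP_033e98_co, packet UTriple: the triple at the start.
-/

namespace Pool.Agent.Helper89.Irr

open Irr37 Irr87

theorem tripleAux (hSP : SP) {p l lw : ℕ} {y yw g : RF} (_hp : 2 ≤ p) (hy : y.width = 1)
    (hg : 1 ≤ g.width) {V : Finset ℕ} {A Aw T : Multiset ℕ} (hA : Multiset.card A = l)
    (hAw : Multiset.card Aw = lw) (hV : V.card + 3 ≤ p + 1) (hS : 2 * p ≤ Aw.sum + p * yw.width)
    (hT : A + (1 ::ₘ Aw) = T) :
    ∃ (A : Multiset ℕ) (x : ℕ) (W L : Multiset ℕ), Multiset.card A = l ∧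
      PS p (RF.cons 1 y (RF.cons lw yw g)) x W L (app y (app yw g)) ∧
      A + L = T ∧ ((A.sum + x) ::ₘ W).Nodup ∧ ∀ u ∈ (A.sum + x) ::ₘ W, p < u ∧ u ∉ V := by
  have hpg : p ≤ p * g.width := Nat.le_mul_of_pos_right p hg
  obtain ⟨x, z, a1, a2, a3, a4, a5, a6, a7, a8, a9, a10, a11, a12, a13⟩ :=
    hSP p (A.sum + p * g.width) (Aw.sum + p * yw.width) (1 + p) V (by omega) hS (by omega)
      (by omega) hV
  have P1 := PS.vert (A := Aw) a1 a2 (PS.cutAll p yw) (PS.cutAll p g)
  have P2 := PS.vert (A := ({1} : Multiset ℕ)) a3 a4 (PS.cutAll p y) P1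
  rw [Multiset.card_singleton, hAw] at P2
  have e1 : A.sum + (z + (x + p * g.width)) = A.sum + p * g.width + x + z := by omega
  have e2 : ({1} : Multiset ℕ).sum + p * y.width + z = 1 + p + z := by
    rw [hy, Multiset.sum_singleton, Nat.mul_one]
  refine ⟨A, _, _, _, hA, P2, ?_, ?_, ?_⟩
  · rw [← hT]
    simp only [add_zero, Multiset.singleton_add]
  · rw [e1, e2]
    simp only [add_zero, zero_add, Multiset.nodup_cons, Multiset.mem_cons, Multiset.notMem_zero,
      Multiset.nodup_zero, or_false, not_or, and_true, not_false_eq_true]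
    refine ⟨⟨Ne.symm a13, Ne.symm a12⟩, Ne.symm a11⟩
  · rw [e1, e2]
    intro u hu
    simp only [add_zero, zero_add, Multiset.mem_cons, Multiset.notMem_zero, or_false] at hu
    rcases hu with rfl | rfl | rfl
    · exact ⟨a9, a10⟩
    · exact ⟨a7, a8⟩
    · exact ⟨a5, a6⟩

theorem uTriple (hSP : SP) : UTriple := by
  intro p l lw y yw g hp hy hg
  constructor
  · intro hyw V fill hsz hcard hfill hnd
    simp only [app_size, app_leaves, RF.size, RF.leaves, Multiset.card_singleton] at hsz hcard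
    obtain ⟨Aw, A, rfl, hAwc⟩ := mset_split (s := fill) (n := lw) (by omega)
    rw [Multiset.card_add] at hcard
    apply tripleAux hSP hp hy hg (A := A) (Aw := Aw) (by omega) hAwc (by omega)
    · have : p * 2 ≤ p * yw.width := Nat.mul_le_mul_left p hyw
      omega
    · rw [Multiset.add_cons, Multiset.singleton_add, add_comm]
  · intro hyw hlw V fill hsz hcard hfill hnd
    have hc2 : Multiset.card ({1, p} : Multiset ℕ) = 2 := rfl
    simp only [app_size, app_leaves, RF.size, RF.leaves, hc2] at hsz hcard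
    obtain ⟨Aw, A, rfl, hAwc⟩ := mset_split (s := fill) (n := lw - 1) (by omega)
    rw [Multiset.card_add] at hcard
    apply tripleAux hSP hp hy hg (A := A) (Aw := p ::ₘ Aw) (by omega)
      (by rw [Multiset.card_cons]; omega) (by omega)
    · rw [hyw, Multiset.sum_cons]
      omega
    · have e : ({1, p} : Multiset ℕ) = 1 ::ₘ p ::ₘ 0 := rfl
      rw [e]
      simp only [Multiset.add_cons, Multiset.cons_add, zero_add]
      rw [add_comm]

end Pool.Agent.Helper89.Irr
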